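import Pool.Agent.MWI.StmtsE

/-! # Row OST of squad MWI -/

set_option autoImplicit false

namespace Pool.Agent.MWI.H22

open Pool.Agent.Helper14_MV Pool.Agent.Helper2_MV Pool.Agent.MWF

theorem pr_cons (r : ℕ) (R : List ℕ) : pr (r :: R) = (3 * r + 1) :: (3 * r + 2) :: pr R := by
  unfold pr
  rw [List.flatMap_cons]
  rfl

theorem pr_append (R S : List ℕ) : pr (R ++ S) = pr R ++ pr S := by
  unfold pr
  rw [List.flatMap_append]

theorem mem_pr {c : ℕ} {R : List ℕ} (h : c ∈ pr R) : ∃ i ∈ R, c = 3 * i + 1 ∨ c = 3 * i + 2 := by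
  unfold pr at h
  rw [List.mem_flatMap] at h
  obtain ⟨i, hi, h⟩ := h
  refine ⟨i, hi, ?_⟩
  simpa using h

theorem pr_filter (R : List ℕ) : (pr R).filter nz = pr R := by
  rw [List.filter_eq_self]
  intro c hc
  obtain ⟨i, _, h⟩ := mem_pr hc
  unfold nz
  rw [decide_eq_true_eq]
  omega

/-- a factor of `pr R` without letters `t` has at most one letter -/
theorem pr_factor : ∀ (R a G b : List ℕ), pr R = a ++ (G ++ b) → (∀ c ∈ G, c % 3 ≠ 1) →
    G.length ≤ 1 := by
  have hpre : ∀ (R G b : List ℕ), pr R = G ++ b → (∀ c ∈ G, c % 3 ≠ 1) → G = [] := by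
    intro R G b h hG
    cases G with
    | nil => rfl
    | cons g G =>
      cases R with
      | nil =>
        have h0 : pr [] = [] := rfl
        rw [h0] at h
        exact absurd h (by simp)
      | cons r R =>
        rw [pr_cons] at h
        have h1 : 3 * r + 1 = g := by
          rw [List.cons_append] at h
          exact (List.cons.inj h).1
        exact absurd (by rw [← h1]; omega) (hG g (List.mem_cons_self))
  intro R
  induction R with
  | nil =>
    intro a G b h _
    have h0 : pr [] = [] := rfl
    rw [h0] at h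
    have h1 := List.append_eq_nil_iff.1 h.symm
    have h2 := List.append_eq_nil_iff.1 h1.2
    rw [h2.1]
    simp
  | cons r R ih =>
    intro a G b h hG
    cases a with
    | nil =>
      rw [List.nil_append] at h
      rw [hpre _ _ _ h hG]
      simp
    | cons x a =>
      cases a with
      | nil =>
        rw [pr_cons, List.cons_append, List.nil_append] at h
        have h1 := (List.cons.inj h).2
        cases G with
        | nil => simp
        | cons g G =>
          rw [List.cons_append] at h1
          have h2 := (List.cons.inj h1).2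
          rw [hpre _ _ _ h2 fun c hc => hG c (List.mem_cons_of_mem _ hc)]
          simp
      | cons y a =>
        rw [pr_cons, List.cons_append, List.cons_append] at h
        have h1 := (List.cons.inj (List.cons.inj h).2).2
        exact ih a G b h1 hG

/-- Row **OST** -/
theorem ost (h1 : OspStmt) (h2 : PjsStmt) : OstStmt := by
  intro β P Q m hy s e w M Y hF Y' F F' B hFt hW hp
  have hperm := (h2 P Q m 0 0 (by omega)).2.2.2.2.1 hy.prm
  have hfil : (pr (stQ Q) ++ Y).filter nz = pr (stQ Q ++ st3 Q) := by
    rw [List.filter_append, pr_filter, hF.fY, pr_append]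
  have hsub : ∀ c ∈ F, c ∈ pr (stQ Q) ++ Y := by
    intro c hc
    rw [hW]
    exact List.mem_append_right _ (List.mem_append_left _ hc)
  have hname : ∀ c ∈ F, c % 3 = 0 → c = 0 ∨ c = 3 ∨ c = 6 := by
    intro c hc h0
    rcases List.mem_append.1 (hsub c hc) with h | h
    · obtain ⟨i, _, h⟩ := mem_pr h
      omega
    · exact hF.nY c h h0
  have hzz : ∀ c ∈ F, c % 3 = 2 → c ∈ zz (idx m) := by
    intro c hc h0
    have h3 : c ∈ (pr (stQ Q) ++ Y).filter nz := by
      rw [List.mem_filter]
      refine ⟨hsub c hc, ?_⟩
      unfold nz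
      rw [decide_eq_true_eq]
      omega
    rw [hfil] at h3
    obtain ⟨i, hi, h4⟩ := mem_pr h3
    have h5 : c = 3 * i + 2 := by omega
    have h6 : i ∈ idx m := hperm.subset (List.mem_append_right _ hi)
    unfold zz
    rw [List.mem_map]
    exact ⟨i, h6, h5.symm⟩
  have hcnt : ∀ c, c = 0 ∨ c = 3 ∨ c = 6 → 2 ≤ M.count c := by
    intro c hc
    rw [hF.pM.count_eq]
    rcases hc with rfl | rfl | rfl <;> simp only [List.count_cons] <;> simp
  have hinM : ∀ c ∈ F, c ∈ M := by
    intro c hc
    have h3 := hFt c hc
    rcases (show c % 3 = 0 ∨ c % 3 = 2 by omega) with h4 | h4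
    · have := hcnt c (hname c hc h4)
      exact List.count_pos_iff.1 (by omega)
    · refine hF.pM.symm.subset ?_
      iterate 6 apply List.mem_cons_of_mem
      exact hzz c hc h4
  have key := h1 β hy.os F F' hp (pl (stL P) ++ (M ++ Y')) B ?_ ?_
  · have e1 : w = (pl (stL P) ++ (M ++ Y')) ++ (F ++ B) := by
      rw [hF.eq, hW]
      simp only [List.append_assoc]
    have e2 : pl (stL P) ++ (M ++ (Y' ++ (F' ++ B))) = (pl (stL P) ++ (M ++ Y')) ++ (F' ++ B) := by
      simp only [List.append_assoc]
    rw [e1, e2]
    exact key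
  · intro c hc
    exact List.mem_append_right _ (List.mem_append_left _ (hinM c hc))
  · have h3 : (F.filter nz).length ≤ 1 := by
      refine pr_factor (stQ Q ++ st3 Q) (Y'.filter nz) (F.filter nz) (B.filter nz) ?_ ?_
      · rw [← hfil, hW, List.filter_append, List.filter_append]
      · intro c hc
        exact hFt c (List.mem_filter.1 hc).1
    refine le_trans ?_ h3
    rw [← List.countP_eq_length_filter, ← List.countP_eq_length_filter]
    apply List.countP_mono_left
    intro c hc h4
    unfold nz
    rw [decide_eq_true_eq] at h4 ⊢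
    intro h5
    have h6 := hcnt c (hname c hc h5)
    have h7 : M.count c ≤ (pl (stL P) ++ (M ++ Y')).count c := by
      rw [List.count_append, List.count_append]
      omega
    omega

end Pool.Agent.MWI.H22
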